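import Mathlib
import Pool.Agent.H90.CsDefs
import Pool.Agent.H90.CsF

namespace Pool.Agent.Results.MP_1c66c9_an.GlobalDim

open Pool.Agent.H90.Cs

theorem result (A : Type) [NonUnitalCStarAlgebra A] (hA : ¬FiniteDimensional ℂ A) :
    ∃ M : LMod A, ¬HasRes M 1 := main A hA

end Pool.Agent.Results.MP_1c66c9_an.GlobalDim
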